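import Pool.Agent.Y283.NK.Stm

/-!
The integrals of the Cauchy kernel over circles are square integrable in the radius.
-/

set_option autoImplicit false

namespace Pool.Agent.Y779.NK

open MeasureTheory Set Metric Filter Topology
open scoped ENNReal NNReal

/-- one-dimensional potentials -/
lemma pot1 {γ : ℝ} (h0 : 0 < γ) (h1 : γ < 1) (s t : ℝ) : ∃ C : ℝ≥0∞, C ≠ ⊤ ∧ ∀ a : ℝ,
    ∫⁻ x in Ioc s t, (‖x - a‖ₑ⁻¹) ^ γ ≤ C := by
  set h : ℝ → ℝ≥0∞ := (Ioc (0:ℝ) 1).indicator fun y => ENNReal.ofReal (y ^ (-γ)) with hh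
  have hm : Measurable h :=
    (Measurable.ennreal_ofReal (measurable_id.pow_const _)).indicator measurableSet_Ioc
  have hfin : ∫⁻ y, h y ≠ ⊤ := by
    rw [hh, lintegral_indicator measurableSet_Ioc]
    have h2 := (intervalIntegral.intervalIntegrable_rpow' (a := 0) (b := 1) (r := -γ)
      (by linarith)).1
    exact h2.lintegral_lt_top.ne
  have key : ∀ y : ℝ, y ≠ 0 → (‖y‖ₑ⁻¹) ^ γ ≤ 1 + h y + h (-y) := by
    intro y hy
    have hay : 0 < |y| := abs_pos.2 hy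
    have e1 : (‖y‖ₑ⁻¹) ^ γ = ENNReal.ofReal (|y| ^ (-γ)) := by
      rw [Real.enorm_eq_ofReal_abs, ← ENNReal.ofReal_inv_of_pos hay,
        ENNReal.ofReal_rpow_of_pos (inv_pos.2 hay), Real.rpow_neg hay.le,
        Real.inv_rpow hay.le]
    rw [e1]
    by_cases hle : |y| ≤ 1
    · rcases lt_or_gt_of_ne hy with hneg | hpos
      · have : h (-y) = ENNReal.ofReal (|y| ^ (-γ)) := by
          rw [hh, indicator_of_mem, abs_of_neg hneg]
          rw [abs_of_neg hneg] at hle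
          exact ⟨by linarith, hle⟩
        rw [this]
        exact le_add_self
      · have : h y = ENNReal.ofReal (|y| ^ (-γ)) := by
          rw [hh, indicator_of_mem, abs_of_pos hpos]
          rw [abs_of_pos hpos] at hle
          exact ⟨hpos, hle⟩
        rw [this]
        exact le_add_right le_add_self
    · refine le_trans ?_ (le_add_right (le_add_right le_rfl))
      rw [← ENNReal.ofReal_one]
      apply ENNReal.ofReal_le_ofReal
      exact Real.rpow_le_one_of_one_le_of_nonpos (not_le.1 hle).le (by linarith)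
  refine ⟨ENNReal.ofReal (t - s) + (∫⁻ y, h y) + ∫⁻ y, h y, ?_, ?_⟩
  · exact ENNReal.add_ne_top.2 ⟨ENNReal.add_ne_top.2 ⟨ENNReal.ofReal_ne_top, hfin⟩, hfin⟩
  intro a
  have hae : ∀ᵐ x ∂(volume.restrict (Ioc s t)), (‖x - a‖ₑ⁻¹) ^ γ ≤
      1 + h (x - a) + h (-(x - a)) := by
    have h3 : ∀ᵐ x ∂(volume : Measure ℝ), x ≠ a := by
      have : (volume : Measure ℝ) {a} = 0 := Real.volume_singleton
      exact compl_mem_ae_iff.2 this
    filter_upwards [ae_restrict_of_ae h3] with x hx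
    exact key _ (sub_ne_zero.2 hx)
  refine (lintegral_mono_ae hae).trans ?_
  have m1 : Measurable fun x : ℝ => h (x - a) := hm.comp (measurable_id.sub_const a)
  have m2 : Measurable fun x : ℝ => h (-(x - a)) := hm.comp (measurable_id.sub_const a).neg
  rw [lintegral_add_right _ m2, lintegral_add_right _ m1]
  have i0 : ∫⁻ _x in Ioc s t, (1 : ℝ≥0∞) = ENNReal.ofReal (t - s) := by
    rw [setLIntegral_const, one_mul, Real.volume_Ioc]
  have i1 : ∫⁻ x in Ioc s t, h (x - a) ≤ ∫⁻ y, h y :=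
    (setLIntegral_le_lintegral _ _).trans (lintegral_sub_right_eq_self h a).le
  have i2 : ∫⁻ x in Ioc s t, h (-(x - a)) ≤ ∫⁻ y, h y := by
    refine (setLIntegral_le_lintegral _ _).trans ?_
    have := lintegral_sub_right_eq_self (μ := (volume : Measure ℝ)) (fun y => h (-y)) a
    rw [this]
    exact (lintegral_neg_eq_self (μ := (volume : Measure ℝ)) h).le
  rw [i0]
  exact add_le_add (add_le_add le_rfl i1) i2

/-- the sine near its zeros -/
lemma sin_low {x : ℝ} (h1 : -Real.pi ≤ x) (h2 : x ≤ 3 * Real.pi) :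
    ∃ k ∈ Finset.Icc (-1 : ℤ) 3, 2 / Real.pi * |x - k * Real.pi| ≤ |Real.sin x| := by
  have hpi := Real.pi_pos
  set k : ℤ := round (x / Real.pi) with hk
  have hr := abs_sub_round (x / Real.pi)
  rw [← hk] at hr
  have e : x - k * Real.pi = (x / Real.pi - k) * Real.pi := by
    field_simp
  have h3 : |x - k * Real.pi| ≤ Real.pi / 2 := by
    rw [e, abs_mul, abs_of_pos hpi]
    nlinarith
  refine ⟨k, ?_, ?_⟩
  · rw [Finset.mem_Icc]
    rw [abs_le] at hr
    have h4 : -1 ≤ x / Real.pi := by rw [le_div_iff₀ hpi]; linarith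
    have h5 : x / Real.pi ≤ 3 := by rw [div_le_iff₀ hpi]; linarith
    constructor
    · have : (-2 : ℝ) < k := by linarith [hr.2]
      have : (-2 : ℤ) < k := by exact_mod_cast this
      omega
    · have : (k : ℝ) < 4 := by linarith [hr.1]
      have : k < (4 : ℤ) := by exact_mod_cast this
      omega
  · refine (Real.mul_abs_le_abs_sin h3).trans (le_of_eq ?_)
    rw [Real.sin_sub_int_mul_pi, abs_mul]
    have : |((-1 : ℝ)) ^ k| = 1 := by
      rw [abs_zpow, abs_neg, abs_one, one_zpow]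
    rw [this, one_mul]

/-- the pointwise bound -/
lemma point {ρ : ℝ} (hρ : 0 < ρ) (c w : ℂ) {r θ : ℝ} (hr : r ∈ Ioc (ρ / 2) ρ)
    (hθ : θ ∈ Ioc (0:ℝ) (2 * Real.pi)) :
    ‖circleMap c r θ - w‖ₑ⁻¹ ≤ (‖r - ‖w - c‖‖ₑ⁻¹) ^ (1 / 4 : ℝ) *
      ((‖ρ / Real.pi‖ₑ⁻¹) ^ (3 / 4 : ℝ) * ∑ k ∈ Finset.Icc (-1 : ℤ) 3,
        (‖θ - (Complex.arg (w - c) + k * Real.pi)‖ₑ⁻¹) ^ (3 / 4 : ℝ)) := by
  have hpi := Real.pi_pos
  set l : ℂ := w - c with hl
  set η : ℝ := Complex.arg l with hη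
  have hr0 : 0 < r := by linarith [hr.1]
  have e0 : circleMap c r θ - w = r * Complex.exp (θ * Complex.I) - l := by
    rw [circleMap, hl]; ring
  have n1 : ‖(r : ℂ) * Complex.exp (θ * Complex.I)‖ = r := by
    rw [norm_mul, Complex.norm_exp_ofReal_mul_I, mul_one, Complex.norm_real,
      Real.norm_of_nonneg hr0.le]
  -- first lower bound
  have b1 : ‖r - ‖l‖‖ₑ ≤ ‖circleMap c r θ - w‖ₑ := by
    rw [enorm_le_iff_norm_le, e0]
    have := abs_norm_sub_norm_le ((r : ℂ) * Complex.exp (θ * Complex.I)) l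
    rw [n1] at this
    exact this
  -- second lower bound
  obtain ⟨k, hk, hks⟩ := sin_low (x := θ - η)
    (by have := Complex.arg_le_pi l; have := hθ.1; linarith)
    (by have := (Complex.neg_pi_lt_arg l).le; have := hθ.2; linarith)
  have b2 : ‖ρ / Real.pi * (θ - (η + k * Real.pi))‖ₑ ≤ ‖circleMap c r θ - w‖ₑ := by
    rw [enorm_le_iff_norm_le, e0]
    have n2 : ‖(r : ℂ) * Complex.exp (θ * Complex.I) - l‖ =
        ‖(r : ℂ) * Complex.exp (((θ - η : ℝ) : ℂ) * Complex.I) - ‖l‖‖ := by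
      have h1 : ‖Complex.exp (((-η : ℝ) : ℂ) * Complex.I)‖ = 1 := Complex.norm_exp_ofReal_mul_I _
      rw [← mul_one ‖(r : ℂ) * Complex.exp (θ * Complex.I) - l‖, ← h1, ← norm_mul]
      congr 1
      have h2 : l = ‖l‖ * Complex.exp (η * Complex.I) := (Complex.norm_mul_exp_arg_mul_I l).symm
      have h3 : Complex.exp (η * Complex.I) * Complex.exp (((-η : ℝ) : ℂ) * Complex.I) = 1 := by
        rw [← Complex.exp_add]
        push_cast
        rw [show (η : ℂ) * Complex.I + -(η : ℂ) * Complex.I = 0 by ring, Complex.exp_zero]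
      have h4 : Complex.exp (θ * Complex.I) * Complex.exp (((-η : ℝ) : ℂ) * Complex.I) =
          Complex.exp (((θ - η : ℝ) : ℂ) * Complex.I) := by
        rw [← Complex.exp_add]
        push_cast
        congr 1
        ring
      rw [sub_mul, mul_assoc, h4]
      congr 1
      calc l * Complex.exp (((-η : ℝ) : ℂ) * Complex.I) =
            ‖l‖ * Complex.exp (η * Complex.I) * Complex.exp (((-η : ℝ) : ℂ) * Complex.I) := by
              rw [← h2]
        _ = ‖l‖ := by rw [mul_assoc, h3, mul_one]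
    rw [n2]
    refine le_trans ?_ (Complex.abs_im_le_norm _)
    rw [Complex.sub_im, Complex.ofReal_im, sub_zero, Complex.im_ofReal_mul,
      Complex.exp_ofReal_mul_I_im, Real.norm_eq_abs, abs_mul, abs_mul, abs_of_pos hr0,
      abs_of_pos (div_pos hρ hpi)]
    have e5 : θ - (η + k * Real.pi) = θ - η - k * Real.pi := by ring
    rw [e5]
    calc ρ / Real.pi * |θ - η - k * Real.pi| = ρ / 2 * (2 / Real.pi * |θ - η - k * Real.pi|) := by
          ring
      _ ≤ r * (2 / Real.pi * |θ - η - k * Real.pi|) := by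
          apply mul_le_mul_of_nonneg_right hr.1.le
          positivity
      _ ≤ r * |Real.sin (θ - η)| := mul_le_mul_of_nonneg_left hks hr0.le
  set q : ℝ≥0∞ := ‖circleMap c r θ - w‖ₑ⁻¹ with hq
  have q1 : q = q ^ (1 / 4 : ℝ) * q ^ (3 / 4 : ℝ) := by
    rw [← ENNReal.rpow_add_of_nonneg _ _ (by norm_num) (by norm_num)]
    norm_num
  rw [q1]
  refine mul_le_mul' (ENNReal.rpow_le_rpow (ENNReal.inv_le_inv.2 b1) (by norm_num)) ?_
  refine (ENNReal.rpow_le_rpow (ENNReal.inv_le_inv.2 b2) (by norm_num)).trans ?_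
  have hρπ : ‖ρ / Real.pi‖ₑ ≠ 0 := by
    rw [enorm_ne_zero]
    exact (div_pos hρ hpi).ne'
  rw [enorm_mul, ENNReal.mul_inv (Or.inl hρπ) (Or.inl enorm_ne_top),
    ENNReal.mul_rpow_of_nonneg _ _ (by norm_num)]
  refine mul_le_mul' le_rfl ?_
  exact Finset.single_le_sum (f := fun k : ℤ =>
    (‖θ - (η + k * Real.pi)‖ₑ⁻¹) ^ (3 / 4 : ℝ)) (fun _ _ => zero_le) hk

theorem main : Pool.Agent.Y283.NK.S_CIRC := by
  intro ρ hρ
  have hpi := Real.pi_pos
  obtain ⟨C1, hC1, h1⟩ := pot1 (γ := 3 / 4) (by norm_num) (by norm_num) 0 (2 * Real.pi)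
  obtain ⟨C2, hC2, h2⟩ := pot1 (γ := 1 / 2) (by norm_num) (by norm_num) (ρ / 2) ρ
  have hρπ : ‖ρ / Real.pi‖ₑ ≠ 0 := by
    rw [enorm_ne_zero]
    exact (div_pos hρ hpi).ne'
  set b : ℝ≥0∞ := (‖ρ / Real.pi‖ₑ⁻¹) ^ (3 / 4 : ℝ) with hb
  have hbt : b ≠ ⊤ := ENNReal.rpow_ne_top_of_nonneg (by norm_num) (ENNReal.inv_ne_top.2 hρπ)
  set D : ℝ≥0∞ := b * (5 * C1) with hD
  have hDt : D ≠ ⊤ := ENNReal.mul_ne_top hbt (ENNReal.mul_ne_top (by norm_num) hC1)
  have hfin : C2 * D ^ 2 ≠ ⊤ := ENNReal.mul_ne_top hC2 (ENNReal.pow_ne_top hDt)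
  refine ⟨(C2 * D ^ 2).toNNReal, fun c w => ?_⟩
  rw [ENNReal.coe_toNNReal hfin]
  have inner : ∀ r ∈ Ioc (ρ / 2) ρ, ∫⁻ θ in Ioc (0:ℝ) (2 * Real.pi), ‖circleMap c r θ - w‖ₑ⁻¹ ≤
      (‖r - ‖w - c‖‖ₑ⁻¹) ^ (1 / 4 : ℝ) * D := by
    intro r hr
    have m0 : ∀ k : ℤ, Measurable fun θ : ℝ =>
        (‖θ - (Complex.arg (w - c) + k * Real.pi)‖ₑ⁻¹) ^ (3 / 4 : ℝ) := fun k =>
      ((measurable_id.sub_const _).enorm.inv).pow_const _
    have m1 : Measurable fun θ : ℝ => ∑ k ∈ Finset.Icc (-1 : ℤ) 3,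
        (‖θ - (Complex.arg (w - c) + k * Real.pi)‖ₑ⁻¹) ^ (3 / 4 : ℝ) :=
      Finset.measurable_sum _ fun k _ => m0 k
    refine (setLIntegral_mono' measurableSet_Ioc fun θ hθ => point hρ c w hr hθ).trans ?_
    rw [lintegral_const_mul _ (m1.const_mul _), lintegral_const_mul _ m1,
      lintegral_finsetSum _ fun k _ => m0 k]
    refine mul_le_mul' le_rfl (mul_le_mul' le_rfl ?_)
    refine (Finset.sum_le_sum fun k _ => h1 _).trans (le_of_eq ?_)
    rw [Finset.sum_const, nsmul_eq_mul]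
    rfl
  refine (setLIntegral_mono' measurableSet_Ioc fun r hr =>
    pow_le_pow_left' (inner r hr) 2).trans ?_
  have e : ∀ r : ℝ, ((‖r - ‖w - c‖‖ₑ⁻¹) ^ (1 / 4 : ℝ) * D) ^ 2 =
      (‖r - ‖w - c‖‖ₑ⁻¹) ^ (1 / 2 : ℝ) * D ^ 2 := by
    intro r
    rw [mul_pow, ← ENNReal.rpow_natCast, ← ENNReal.rpow_mul]
    norm_num
  simp only [e]
  have m2 : Measurable fun r : ℝ => (‖r - ‖w - c‖‖ₑ⁻¹) ^ (1 / 2 : ℝ) :=
    ((measurable_id.sub_const _).enorm.inv).pow_const _
  rw [lintegral_mul_const _ m2]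
  exact mul_le_mul' (h2 _) le_rfl

end Pool.Agent.Y779.NK
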